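import Pool.Agent.Helper1.T5.Near
import Pool.Agent.Helper3.T5.J0
import Pool.Agent.Helper55.T5.Inst
import Pool.Agent.Helper96.T5.Inst
import Pool.Agent.Helper36.T5.MpNum

/-!
# T5a, block J0 (b): the targets `n - (code + code')` of the main level
-/

set_option autoImplicit false

namespace Pool.Agent.Helper2.T5

open Finset Pool.Agent.Helper27.T4 Pool.Agent.Helper3.T5 Pool.Agent.Helper1.T5
  Pool.Agent.Helper22.SL

section Gen

variable {ι κ : Type*} [Fintype ι] [DecidableEq ι] {Mk : κ → ℕ} {M : MP ι κ}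

theorem mem_Lb (hM : M.Ok Mk) {n : ℕ} {w : κ → ℕ} {z : (ι → ℕ) × (ι → ℕ)} :
    z ∈ Lb M hM n w ↔ (z.1 ∈ M.X ∧ z.2 ∈ M.X') ∧
      (∀ i, M.cd hM w z.1 + M.cd' hM w z.2 ≡ n [MOD M.p i ^ M.c' i]) ∧
      M.cd hM w z.1 + M.cd' hM w z.2 ≤ n := by
  classical
  unfold Lb MP.prs
  rw [mem_filter, mem_filter, mem_product]
  tauto

theorem modEq_NN (hM : M.Ok Mk) (b : ι → ℕ) {x y : ℕ}
    (h : ∀ i, x ≡ y [MOD M.p i ^ b i]) : x ≡ y [MOD NN M.p b] := by
  rw [← ZMod.natCast_eq_natCast_iff, natCast_eq_iff hM.prime hM.inj]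
  intro i
  rw [ZMod.natCast_eq_natCast_iff]
  exact h i

/-- number of labels -/
theorem card_Lb (hM : M.Ok Mk) (n : ℕ) (w : κ → ℕ) :
    ((Lb M hM n w).image (tg M hM n w)).card ≤
      M.C * ∏ i, M.p i ^ ((M.c i + M.c' i - 2 * M.c' i) / 2) := by
  classical
  refine card_image_le.trans ((card_le_card (filter_subset _ _)).trans ?_)
  exact Pool.Agent.Helper18.T5.base_count hM w M.c' hM.ce' n

/-- **targets of the main level, general form** -/
theorem tgS_gen (hM : M.Ok Mk) (P : Pr κ) (hN : P.M' * P.L0 = M.N0)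
    (hwin : 2 * M.Ne ≤ P.F 0 * P.L0) (h0 : 2 * M.Ne ≤ P.F' 0) (b : ℕ → ι → ℕ)
    (hb : ∀ r, 1 ≤ r → r ≤ P.h → (∀ i, b r i ≤ M.e' i) ∧ P.F' r = NN M.p (b r))
    {Ir : ℕ → ℕ} (hI0 : 1 ≤ Ir 0)
    (hI : ∀ r, 1 ≤ r → r ≤ P.h →
      M.C * ∏ i, M.p i ^ ((M.c i + M.c' i - 2 * b r i) / 2) ≤ Ir r) (n : ℕ) (w : κ → ℕ) :
    TgS P ((Lb M hM n w).image (tg M hM n w)) Ir := by
  classical
  have hw : ∀ t ∈ (Lb M hM n w).image (tg M hM n w),
      ∀ u ∈ (Lb M hM n w).image (tg M hM n w), t < u + 2 * M.Ne := by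
    intro t ht u hu
    rw [mem_image] at ht hu
    obtain ⟨z, hz, rfl⟩ := ht
    obtain ⟨z', hz', rfl⟩ := hu
    have h1 := (mem_Lb hM).1 hz
    have h2 := (mem_Lb hM).1 hz'
    have h3 := sum_lt hM w z'.1 z'.2
    unfold tg
    omega
  refine ⟨?_, fun t ht u hu => (hw t ht u hu).trans_le (Nat.add_le_add_left hwin _), ?_⟩
  · intro t ht
    rw [mem_image] at ht
    obtain ⟨z, hz, rfl⟩ := ht
    obtain ⟨-, h2, h3⟩ := (mem_Lb hM).1 hz
    rw [hN]
    exact (Nat.modEq_iff_dvd' h3).1 (modEq_NN hM _ h2)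
  · intro r hr c
    rcases Nat.eq_zero_or_pos r with rfl | hr1
    · refine le_trans (Finset.card_le_one.2 ?_) hI0
      intro t ht u hu
      rw [mem_filter] at ht hu
      have h1 := hw t ht.1 u hu.1
      have h2 := hw u hu.1 t ht.1
      have h3 : t ≡ u [MOD P.F' 0] := ht.2.trans hu.2.symm
      rcases le_total t u with h4 | h4
      · have h5 := (Nat.modEq_iff_dvd' h4).1 h3
        have h6 := Nat.eq_zero_of_dvd_of_lt h5 (by omega)
        omega
      · have h5 := (Nat.modEq_iff_dvd' h4).1 h3.symm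
        have h6 := Nat.eq_zero_of_dvd_of_lt h5 (by omega)
        omega
    · obtain ⟨hb1, hb2⟩ := hb r hr1 hr
      refine le_trans ?_ (hI r hr1 hr)
      set S := ((Lb M hM n w).image (tg M hM n w)).filter
        (fun t => t % P.F' r = c % P.F' r) with hS
      by_cases hne : S.Nonempty
      swap
      · rw [not_nonempty_iff_eq_empty] at hne
        rw [hne, card_empty]
        exact Nat.zero_le _
      obtain ⟨t0, ht0⟩ := hne
      rw [hS, mem_filter, mem_image] at ht0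
      obtain ⟨⟨z0, hz0, hz0t⟩, hc0⟩ := ht0
      refine le_trans ?_ (Pool.Agent.Helper18.T5.base_count hM w (b r) hb1
        (M.cd hM w z0.1 + M.cd' hM w z0.2))
      refine le_trans (card_le_card (t := (M.prs hM w (b r)
        (M.cd hM w z0.1 + M.cd' hM w z0.2)).image (tg M hM n w)) ?_) card_image_le
      intro t ht
      rw [hS, mem_filter, mem_image] at ht
      obtain ⟨⟨z, hz, hzt⟩, hc⟩ := ht
      rw [mem_image]
      refine ⟨z, ?_, hzt⟩
      have h1 := (mem_Lb hM).1 hz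
      have h2 := (mem_Lb hM).1 hz0
      unfold MP.prs
      rw [mem_filter, mem_product]
      refine ⟨h1.1, fun i => ?_⟩
      have h3 : t ≡ t0 [MOD P.F' r] := hc.trans hc0.symm
      have h4 : t ≡ t0 [MOD M.p i ^ b r i] := h3.of_dvd (by
        rw [hb2]
        exact Finset.dvd_prod_of_mem (fun i => M.p i ^ b r i) (mem_univ i))
      have e1 : (M.cd hM w z.1 + M.cd' hM w z.2) + t = n := by
        rw [← hzt]
        unfold tg
        omega
      have e2 : (M.cd hM w z0.1 + M.cd' hM w z0.2) + t0 = n := by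
        rw [← hz0t]
        unfold tg
        omega
      have h5 : (M.cd hM w z.1 + M.cd' hM w z.2) + t ≡
          (M.cd hM w z0.1 + M.cd' hM w z0.2) + t [MOD M.p i ^ b r i] := by
        rw [e1, ← e2]
        exact Nat.ModEq.add_left _ h4.symm
      exact Nat.ModEq.add_right_cancel' _ h5

end Gen

open Pool.Agent.Helper27.T5 Pool.Agent.Helper11.T5 Pool.Agent.Helper96.T5 Pool.Agent.Helper55.T5
  Pool.Agent.Helper36.T5
open Pool.Agent.Helper5.ET hiding Key Mk keysOf AA Rp vlo vhi bkey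
open Pool.Agent.Helper57.T5 (LL)

/-- the number of labels (T5a) -/
noncomputable def Iz (m l' l : ℕ) : ℕ :=
  (mp m l' l).C * pr (fam (era l)) ^ ((l - l') / 2)

/-- the class numbers (T5a); the front `0` is the virtual one -/
noncomputable def Irz (m l' l r : ℕ) : ℕ :=
  if r = 0 then 1
  else (mp m l' l).C * pr (fam (era l)) ^ ((l - l' - 2 * (ef m (r + 1) l' - l')) / 2)

variable {m l' l h : ℕ}

/-- the number of targets -/
theorem card_targets (hM : (mp m l' l).Ok (Mk m)) (he : era l' = era l) (hl : l' ≤ l) (n : ℕ)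
    (w : Key → ℕ) :
    ((Lb (mp m l' l) hM n w).image (tg (mp m l' l) hM n w)).card ≤ Iz m l' l := by
  have h1 := card_Lb hM n w
  refine h1.trans (le_of_eq ?_)
  unfold Iz
  congr 1
  exact prod_av_self hl he

/-- **J0 (b): the targets of the main level fit to the static block** -/
theorem tgS (hM : (mp m l' l).Ok (Mk m)) (hb : 10 * m ≤ la (era l)) (hu' : used m l')
    (he : era l' = era l) (hl : l' ≤ l) (hh : h + 1 < m) (n : ℕ) (w : Key → ℕ) :
    TgS (prD m l' l 0 h (4 * FF m l 0))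
      ((Lb (mp m l' l) hM n w).image (tg (mp m l' l) hM n w)) (Irz m l' l) := by
  have hb' : 10 * m ≤ la (era l') := by rw [he]; exact hb
  have hL : LL (QQ m (era l)) 0 = 1 := rfl
  refine tgS_gen hM (prD m l' l 0 h (4 * FF m l 0)) ?_ ?_ ?_ (fun r => av (ef m (r + 1) l'))
    ?_ ?_ ?_ n w
  · change Nj l' * LL (QQ m (era l)) 0 = Nj l'
    rw [hL, mul_one]
  · change 2 * FF m l 0 ≤ 4 * FF m l 0 * LL (QQ m (era l)) 0
    rw [hL]
    omega
  · change 2 * FF m l 0 ≤ 4 * FF m l 0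
    omega
  · intro r hr1 hr
    have hr' : r ≤ h := hr
    refine ⟨fun i => av_mono (ef_anti hb' (by omega) (by omega)) i, ?_⟩
    obtain ⟨s, rfl⟩ : ∃ s, r = s + 1 := ⟨r - 1, by omega⟩
    change FF m l' (0 + (s + 1)) = NN pr (av (ef m (s + 1 + 1) l'))
    rw [zero_add]
    rfl
  · unfold Irz
    rw [if_pos rfl]
  · intro r hr1 hr
    have hr' : r ≤ h := hr
    unfold Irz
    rw [if_neg (by omega)]
    refine le_of_eq ?_
    congr 1
    exact prod_av_ef hu' hb' hl he (by omega) (by omega)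

/-! ## numbers in the form of `Helper63.T5.PD.hA`, `PD.hB` -/

theorem mp_C_exp (m l' l : ℕ) : ((mp m l' l).C : ℝ) ≤ Real.exp 60 := by
  have h1 : ((mp m l' l).C : ℝ) ≤ (2 * 1000036 : ℝ) ^ 3 := by exact_mod_cast mp_C
  have h2 : (2 : ℝ) ^ 60 ≤ Real.exp 60 := by
    have h3 : (2 : ℝ) ≤ Real.exp 1 := by
      have := Real.add_one_le_exp (1 : ℝ)
      linarith
    calc (2 : ℝ) ^ 60 ≤ (Real.exp 1) ^ 60 := pow_le_pow_left₀ (by norm_num) h3 60
      _ = Real.exp 60 := by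
          rw [← Real.exp_nat_mul]
          norm_num
  have h4 : (2 * 1000036 : ℝ) ^ 3 ≤ (2 : ℝ) ^ 63 := by norm_num
  have h5 : (2 : ℝ) ^ 63 ≤ Real.exp 60 := by
    have h6 : (2.718 : ℝ) ≤ Real.exp 1 := by
      have := Real.exp_one_gt_d9
      linarith
    calc (2 : ℝ) ^ 63 ≤ (2.718 : ℝ) ^ 60 := by norm_num
      _ ≤ (Real.exp 1) ^ 60 := pow_le_pow_left₀ (by norm_num) h6 60
      _ = Real.exp 60 := by
          rw [← Real.exp_nat_mul]
          norm_num
  exact h1.trans (h4.trans h5)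

theorem C_mul_pow_le (m l' l e : ℕ) {x : ℝ} (hx : (e : ℝ) ≤ x) :
    (((mp m l' l).C * pr (fam (era l)) ^ e : ℕ) : ℝ) ≤
      Real.exp (60 + x * Real.log (pr (fam (era l)))) := by
  have hp : (0 : ℝ) < pr (fam (era l)) := by
    exact_mod_cast (pr_prime (fam (era l))).pos
  have hp1 : (1 : ℝ) ≤ pr (fam (era l)) := by
    exact_mod_cast (pr_prime (fam (era l))).one_lt.le
  push_cast
  rw [Real.exp_add]
  apply mul_le_mul (mp_C_exp m l' l) _ (by positivity) (Real.exp_pos _).le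
  calc (pr (fam (era l)) : ℝ) ^ e = Real.exp (e * Real.log (pr (fam (era l)))) := by
        rw [Real.exp_nat_mul, Real.exp_log hp]
    _ ≤ Real.exp (x * Real.log (pr (fam (era l)))) := by
        apply Real.exp_le_exp.2
        exact mul_le_mul_of_nonneg_right hx (Real.log_nonneg hp1)

theorem Iz_le (m l' l : ℕ) : (Iz m l' l : ℝ) ≤
    Real.exp (60 + ((l - l' : ℕ) : ℝ) * Real.log (pr (fam (era l))) / 2) := by
  have h : (((l - l') / 2 : ℕ) : ℝ) ≤ ((l - l' : ℕ) : ℝ) / 2 := Nat.cast_div_le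
  refine (C_mul_pow_le m l' l _ h).trans (le_of_eq ?_)
  congr 1
  ring

theorem Irz_le (m l' l : ℕ) {r : ℕ} (hr : 1 ≤ r) : (Irz m l' l r : ℝ) ≤
    Real.exp (60 + ((l - l' : ℕ) : ℝ) * Real.log (pr (fam (era l))) / 2) := by
  unfold Irz
  rw [if_neg (by omega)]
  have h : (((l - l' - 2 * (ef m (r + 1) l' - l')) / 2 : ℕ) : ℝ) ≤ ((l - l' : ℕ) : ℝ) / 2 := by
    have h1 : (l - l' - 2 * (ef m (r + 1) l' - l')) / 2 ≤ (l - l') / 2 :=
      Nat.div_le_div_right (Nat.sub_le _ _)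
    have h2 : (((l - l' - 2 * (ef m (r + 1) l' - l')) / 2 : ℕ) : ℝ) ≤ (((l - l') / 2 : ℕ) : ℝ) := by
      exact_mod_cast h1
    exact h2.trans Nat.cast_div_le
  refine (C_mul_pow_le m l' l _ h).trans (le_of_eq ?_)
  congr 1
  ring

theorem Irz_small (m l' l : ℕ) {r : ℕ} (hr : 1 ≤ r) (h : l - l' ≤ ef m (1 + r) l' - l') :
    (Irz m l' l r : ℝ) ≤ Real.exp 60 := by
  unfold Irz
  rw [if_neg (by omega), show (l - l' - 2 * (ef m (r + 1) l' - l')) / 2 = 0 by
    rw [Nat.add_comm 1 r] at h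
    omega, pow_zero, mul_one]
  exact mp_C_exp m l' l

end Pool.Agent.Helper2.T5
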