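import Pool.Agent.Helper29.T4.Pin

/-!
# A Bernstein inequality in the key space, with groups

Candidates `Y`, each pins its fresh keys.  Candidates of different groups have disjoint fresh keys,
and at most `B` candidates of one group are hits at the same time.  Then the number of key
assignments with at least `N` hits is at most `#Om * (Q / (N - m B)) ^ m`, where `Q` bounds the
expected number of hits.
-/

namespace Pool.Agent.Helper2.T5

open Finset Pool.Agent.Helper29.T4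

variable {κ δ α : Type*} [DecidableEq δ] [DecidableEq α]

/-- lists of `m` candidates from `Y` in pairwise different groups -/
def LL (Y : Finset δ) (φ : δ → α) : ℕ → Finset (List δ)
  | 0 => {[]}
  | m + 1 => (LL Y φ m).biUnion
      (fun l => (Y.filter (fun y => φ y ∉ l.map φ)).image (fun y => y :: l))

theorem mem_LL_succ (Y : Finset δ) (φ : δ → α) (m : ℕ) (l : List δ) :
    l ∈ LL Y φ (m + 1) ↔ ∃ t ∈ LL Y φ m, ∃ y ∈ Y, φ y ∉ t.map φ ∧ y :: t = l := by
  rw [LL, mem_biUnion]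
  constructor
  · rintro ⟨t, ht, h⟩
    rw [mem_image] at h
    obtain ⟨y, hy, rfl⟩ := h
    rw [mem_filter] at hy
    exact ⟨t, ht, y, hy.1, hy.2, rfl⟩
  · rintro ⟨t, ht, y, hy, hn, rfl⟩
    exact ⟨t, ht, mem_image_of_mem _ (mem_filter.2 ⟨hy, hn⟩)⟩

theorem LL_spec (Y : Finset δ) (φ : δ → α) (m : ℕ) :
    ∀ l ∈ LL Y φ m, l.length = m ∧ (l.map φ).Nodup ∧ ∀ y ∈ l, y ∈ Y := by
  induction m with
  | zero =>
    intro l hl
    rw [LL, mem_singleton] at hl
    subst hl
    simp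
  | succ m ih =>
    intro l hl
    rw [mem_LL_succ] at hl
    obtain ⟨t, ht, y, hy, hn, rfl⟩ := hl
    obtain ⟨h1, h2, h3⟩ := ih t ht
    refine ⟨by simp [h1], ?_, ?_⟩
    · rw [List.map_cons, List.nodup_cons]
      exact ⟨hn, h2⟩
    · intro z hz
      rcases List.mem_cons.1 hz with rfl | hz
      · exact hy
      · exact h3 z hz

theorem LL_disj (Y : Finset δ) (φ : δ → α) (s : Finset (List δ)) :
    (s : Set (List δ)).PairwiseDisjoint
      (fun l => (Y.filter (fun y => φ y ∉ l.map φ)).image (fun y => y :: l)) := by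
  intro l _ l' _ hne
  rw [Function.onFun, Finset.disjoint_left]
  intro x hx hx'
  rw [mem_image] at hx hx'
  obtain ⟨y, _, rfl⟩ := hx
  obtain ⟨y', _, h⟩ := hx'
  exact hne (List.cons.inj h).2.symm

theorem LL_mono {H Y : Finset δ} (h : H ⊆ Y) (φ : δ → α) (m : ℕ) :
    LL H φ m ⊆ (LL Y φ m).filter (fun l => ∀ y ∈ l, y ∈ H) := by
  induction m with
  | zero =>
    intro l hl
    rw [LL, mem_singleton] at hl
    subst hl
    simp [LL]
  | succ m ih =>
    intro l hl
    rw [mem_LL_succ] at hl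
    obtain ⟨t, ht, y, hy, hn, rfl⟩ := hl
    have h2 := ih ht
    rw [mem_filter] at h2 ⊢
    refine ⟨(mem_LL_succ _ _ _ _).2 ⟨t, h2.1, y, h hy, hn, rfl⟩, ?_⟩
    intro z hz
    rcases List.mem_cons.1 hz with rfl | hz
    · exact hy
    · exact h2.2 z hz

/-- many lists -/
theorem card_LL_ge (H : Finset δ) (φ : δ → α) (B N m : ℕ) (hN : N ≤ H.card)
    (hB : ∀ a, (H.filter (fun y => φ y = a)).card ≤ B) :
    ∀ j ≤ m, (N - m * B) ^ j ≤ (LL H φ j).card := by
  intro j
  induction j with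
  | zero => intro _; simp [LL]
  | succ j ih =>
    intro hj
    have ih' := ih (by omega)
    rw [LL, card_biUnion (LL_disj H φ _)]
    have hc : ∀ l ∈ LL H φ j, N - m * B ≤
        ((H.filter (fun y => φ y ∉ l.map φ)).image (fun y => y :: l)).card := by
      intro l hl
      rw [card_image_of_injective _ (fun a b h => (List.cons.inj h).1)]
      obtain ⟨hlen, _, _⟩ := LL_spec H φ j l hl
      have h1 : (H.filter (fun y => φ y ∈ l.map φ)).card ≤ m * B := by
        have h2 : H.filter (fun y => φ y ∈ l.map φ) ⊆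
            (l.map φ).toFinset.biUnion (fun a => H.filter (fun y => φ y = a)) := by
          intro y hy
          rw [mem_filter] at hy
          rw [mem_biUnion]
          exact ⟨φ y, List.mem_toFinset.2 hy.2, mem_filter.2 ⟨hy.1, rfl⟩⟩
        refine (card_le_card h2).trans ?_
        refine (card_biUnion_le_card_mul _ _ B (fun a _ => hB a)).trans ?_
        apply Nat.mul_le_mul_right
        refine (List.toFinset_card_le _).trans ?_
        rw [List.length_map, hlen]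
        omega
      have h3 := Finset.card_filter_add_card_filter_not (s := H) (fun y => φ y ∈ l.map φ)
      omega
    calc (N - m * B) ^ (j + 1) = (N - m * B) ^ j * (N - m * B) := pow_succ _ _
      _ ≤ (LL H φ j).card * (N - m * B) := Nat.mul_le_mul_right _ ih'
      _ = ∑ _l ∈ LL H φ j, (N - m * B) := by rw [sum_const, smul_eq_mul]
      _ ≤ _ := sum_le_sum hc

/-- the total weight of the lists -/
theorem sum_LL_le (Y : Finset δ) (φ : δ → α) (w : δ → ℝ) (hw : ∀ y ∈ Y, 0 ≤ w y) (Q : ℝ)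
    (hQ : ∑ y ∈ Y, w y ≤ Q) (m : ℕ) :
    ∑ l ∈ LL Y φ m, (l.map w).prod ≤ Q ^ m := by
  have hQ0 : 0 ≤ Q := (sum_nonneg hw).trans hQ
  induction m with
  | zero => simp [LL]
  | succ m ih =>
    rw [LL, sum_biUnion (LL_disj Y φ _)]
    have hnn : ∀ l ∈ LL Y φ m, 0 ≤ (l.map w).prod := by
      intro l hl
      apply List.prod_nonneg
      intro a ha
      rw [List.mem_map] at ha
      obtain ⟨y, hy, rfl⟩ := ha
      exact hw y ((LL_spec Y φ m l hl).2.2 y hy)
    have hc : ∀ l ∈ LL Y φ m,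
        ∑ t ∈ (Y.filter (fun y => φ y ∉ l.map φ)).image (fun y => y :: l), (t.map w).prod ≤
          Q * (l.map w).prod := by
      intro l hl
      rw [sum_image (fun a _ b _ h => (List.cons.inj h).1)]
      have h1 : ∑ y ∈ Y.filter (fun y => φ y ∉ l.map φ), ((y :: l).map w).prod =
          (∑ y ∈ Y.filter (fun y => φ y ∉ l.map φ), w y) * (l.map w).prod := by
        rw [sum_mul]
        refine sum_congr rfl (fun y _ => ?_)
        rw [List.map_cons, List.prod_cons]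
      rw [h1]
      apply mul_le_mul_of_nonneg_right _ (hnn l hl)
      refine le_trans ?_ hQ
      exact sum_le_sum_of_subset_of_nonneg (filter_subset _ _) (fun y hy _ => hw y hy)
    refine (sum_le_sum hc).trans ?_
    rw [← mul_sum, pow_succ, mul_comm]
    exact mul_le_mul_of_nonneg_right ih hQ0

variable [Fintype κ] [DecidableEq κ]

/-- all members of a list are hits -/
theorem pin_list (M : κ → ℕ) (hM : ∀ k, 0 < M k) (Y : Finset δ) (hit : δ → (κ → ℕ) → Prop)
    (fk : δ → Finset κ) (vl : δ → κ → ℕ)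
    (hv : ∀ y ∈ Y, ∀ r ∈ Om M, hit y r → ∀ k ∈ fk y, r k = vl y k)
    (φ : δ → α) (hd : ∀ y ∈ Y, ∀ z ∈ Y, φ y ≠ φ z → Disjoint (fk y) (fk z)) (m : ℕ)
    (l : List δ) (hl : l ∈ LL Y φ m) (S : Finset (κ → ℕ))
    (hS : ∀ r ∈ S, r ∈ Om M ∧ ∀ y ∈ l, hit y r) :
    (S.card : ℝ) ≤ (Om M).card * (l.map (fun y => ∏ k ∈ fk y, ((M k : ℝ))⁻¹)).prod := by
  classical
  obtain ⟨_, hnd, hY⟩ := LL_spec Y φ m l hl
  let v : κ → ℕ := fun k => if h : ∃ y, y ∈ l ∧ k ∈ fk y then vl h.choose k else 0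
  have hsub : S ⊆ (Om M).filter (fun r => ∀ k ∈ l.toFinset.biUnion fk, r k = v k) := by
    intro r hr
    obtain ⟨h1, h2⟩ := hS r hr
    rw [mem_filter]
    refine ⟨h1, ?_⟩
    intro k hk
    rw [mem_biUnion] at hk
    obtain ⟨y, hy, hky⟩ := hk
    have hex : ∃ y, y ∈ l ∧ k ∈ fk y := ⟨y, List.mem_toFinset.1 hy, hky⟩
    simp only [v, dif_pos hex]
    exact hv _ (hY _ hex.choose_spec.1) r h1 (h2 _ hex.choose_spec.1) k hex.choose_spec.2
  refine (Nat.cast_le.mpr (card_le_card hsub)).trans ((pin_real M hM _ v).trans ?_)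
  apply mul_le_mul_of_nonneg_left _ (Nat.cast_nonneg _)
  rw [prod_biUnion]
  · rw [List.prod_toFinset _ (List.Nodup.of_map φ hnd)]
  · intro y hy z hz hyz
    have hy' := List.mem_toFinset.1 hy
    have hz' := List.mem_toFinset.1 hz
    refine hd y (hY y hy') z (hY z hz') ?_
    intro h
    exact hyz (List.inj_on_of_nodup_map hnd hy' hz' h)

open Classical in
/-- **Bernstein with groups.** -/
theorem bernstein (M : κ → ℕ) (hM : ∀ k, 0 < M k) (Y : Finset δ) (hit : δ → (κ → ℕ) → Prop)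
    (fk : δ → Finset κ) (vl : δ → κ → ℕ)
    (hv : ∀ y ∈ Y, ∀ r ∈ Om M, hit y r → ∀ k ∈ fk y, r k = vl y k)
    (φ : δ → α) (hd : ∀ y ∈ Y, ∀ z ∈ Y, φ y ≠ φ z → Disjoint (fk y) (fk z)) (B : ℕ)
    (hB : ∀ r ∈ Om M, ∀ a, (Y.filter (fun y => φ y = a ∧ hit y r)).card ≤ B)
    (Q : ℝ) (hQ : ∑ y ∈ Y, ∏ k ∈ fk y, ((M k : ℝ))⁻¹ ≤ Q) (m N : ℕ) :
    (((Om M).filter (fun r => N ≤ (Y.filter (fun y => hit y r)).card)).card : ℝ) *
      ((N - m * B : ℕ) : ℝ) ^ m ≤ (Om M).card * Q ^ m := by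
  set S := (Om M).filter (fun r => N ≤ (Y.filter (fun y => hit y r)).card) with hSdef
  have h1 : ∀ r ∈ S, (N - m * B) ^ m ≤
      ((LL Y φ m).filter (fun l => ∀ y ∈ l, hit y r)).card := by
    intro r hr
    rw [hSdef, mem_filter] at hr
    have h2 := card_LL_ge (Y.filter (fun y => hit y r)) φ B N m hr.2 (by
      intro a
      refine le_trans (card_le_card ?_) (hB r hr.1 a)
      intro y hy
      rw [mem_filter, mem_filter] at hy
      exact mem_filter.2 ⟨hy.1.1, hy.2, hy.1.2⟩) m le_rfl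
    refine h2.trans (card_le_card ?_)
    intro l hl
    have h3 := LL_mono (filter_subset (fun y => hit y r) Y) φ m hl
    rw [mem_filter] at h3 ⊢
    exact ⟨h3.1, fun y hy => (mem_filter.1 (h3.2 y hy)).2⟩
  have h2 : ∀ l ∈ LL Y φ m, ((S.filter (fun r => ∀ y ∈ l, hit y r)).card : ℝ) ≤
      (Om M).card * (l.map (fun y => ∏ k ∈ fk y, ((M k : ℝ))⁻¹)).prod := by
    intro l hl
    refine pin_list M hM Y hit fk vl hv φ hd m l hl _ ?_
    intro r hr
    rw [mem_filter, hSdef, mem_filter] at hr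
    exact ⟨hr.1.1, hr.2⟩
  have h3 : ∑ r ∈ S, ((LL Y φ m).filter (fun l => ∀ y ∈ l, hit y r)).card =
      ∑ l ∈ LL Y φ m, (S.filter (fun r => ∀ y ∈ l, hit y r)).card := by
    simp only [card_filter]
    rw [sum_comm]
  have h4 : S.card * (N - m * B) ^ m ≤
      ∑ r ∈ S, ((LL Y φ m).filter (fun l => ∀ y ∈ l, hit y r)).card := by
    rw [← smul_eq_mul, ← sum_const]
    exact sum_le_sum h1
  have h5 : ((S.card * (N - m * B) ^ m : ℕ) : ℝ) ≤
      ∑ l ∈ LL Y φ m, ((S.filter (fun r => ∀ y ∈ l, hit y r)).card : ℝ) := by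
    rw [h3] at h4
    exact_mod_cast h4
  push_cast at h5
  refine h5.trans ((sum_le_sum h2).trans ?_)
  rw [← mul_sum]
  apply mul_le_mul_of_nonneg_left _ (Nat.cast_nonneg _)
  refine sum_LL_le Y φ _ ?_ Q hQ m
  intro y _
  exact prod_nonneg (fun k _ => inv_nonneg.2 (Nat.cast_nonneg _))

open Classical in
/-- the usual form: more than `m B + Q'` hits, `Q' >= e Q`, has probability at most `e ^ (-m)` -/
theorem bernstein_exp (M : κ → ℕ) (hM : ∀ k, 0 < M k) (Y : Finset δ)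
    (hit : δ → (κ → ℕ) → Prop)
    (fk : δ → Finset κ) (vl : δ → κ → ℕ)
    (hv : ∀ y ∈ Y, ∀ r ∈ Om M, hit y r → ∀ k ∈ fk y, r k = vl y k)
    (φ : δ → α) (hd : ∀ y ∈ Y, ∀ z ∈ Y, φ y ≠ φ z → Disjoint (fk y) (fk z)) (B : ℕ)
    (hB : ∀ r ∈ Om M, ∀ a, (Y.filter (fun y => φ y = a ∧ hit y r)).card ≤ B)
    (Q : ℝ) (hQ : ∑ y ∈ Y, ∏ k ∈ fk y, ((M k : ℝ))⁻¹ ≤ Q) (m N Q' : ℕ)
    (hQ' : Real.exp 1 * Q ≤ Q') (hQ0 : 0 < Q') (hN : m * B + Q' ≤ N) :
    (((Om M).filter (fun r => N ≤ (Y.filter (fun y => hit y r)).card)).card : ℝ) ≤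
      (Om M).card * Real.exp (-m) := by
  have h := bernstein M hM Y hit fk vl hv φ hd B hB Q hQ m N
  have hQnn : 0 ≤ Q := (sum_nonneg (fun y _ =>
    prod_nonneg (fun k _ => inv_nonneg.2 (Nat.cast_nonneg _)))).trans hQ
  have h1 : (Q' : ℝ) ≤ ((N - m * B : ℕ) : ℝ) := by
    exact_mod_cast (by omega : Q' ≤ N - m * B)
  have h0 : (0 : ℝ) < Q' := by exact_mod_cast hQ0
  have h2 : (0 : ℝ) < ((N - m * B : ℕ) : ℝ) := lt_of_lt_of_le h0 h1
  have h3 : Q ^ m ≤ ((N - m * B : ℕ) : ℝ) ^ m * Real.exp (-m) := by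
    have e1 : Real.exp (-(m : ℝ)) = (Real.exp (-1)) ^ m := by
      rw [← Real.exp_nat_mul]
      congr 1
      ring
    rw [e1, ← mul_pow]
    apply pow_le_pow_left₀ hQnn
    have e2 : Q = Real.exp (-1) * (Real.exp 1 * Q) := by
      rw [← mul_assoc, ← Real.exp_add]
      simp
    rw [e2, mul_comm]
    exact mul_le_mul_of_nonneg_right (hQ'.trans h1) (Real.exp_pos _).le
  have h4 : (((Om M).filter (fun r => N ≤ (Y.filter (fun y => hit y r)).card)).card : ℝ) *
      ((N - m * B : ℕ) : ℝ) ^ m ≤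
      ((Om M).card * Real.exp (-m)) * ((N - m * B : ℕ) : ℝ) ^ m := by
    refine h.trans ?_
    rw [mul_assoc, mul_comm (Real.exp (-(m : ℝ)))]
    exact mul_le_mul_of_nonneg_left h3 (Nat.cast_nonneg _)
  exact le_of_mul_le_mul_right h4 (pow_pos h2 m)

end Pool.Agent.Helper2.T5
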