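import Pool.Agent.Helper3.T5.Defs
import Pool.Agent.Helper11.T5.Defs

/-!
# T5a, block J0: J8, the main level of two used states of one era as an instance of `MP`
-/

set_option autoImplicit false

namespace Pool.Agent.Helper2.T5

open Finset Pool.Agent.Helper27.T4 Pool.Agent.Helper27.T5
open Pool.Agent.Helper5.ET hiding Key keysOf Mk bkey
open Pool.Agent.Helper3.T5 Pool.Agent.Helper39.T5
open Pool.Agent.Helper11.T5 (Key Mk hkey X1 c1 cmp1 Mk_main keysOf Bd LA_pos)

/-- the label level of the states `l' < l` (T5a) -/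
noncomputable def MPI (m l' l : ℕ) : MP (Fin 3) Key where
  p := pr
  c := av l
  c' := av l'
  e := av (ef m 1 l)
  e' := av (ef m 1 l')
  X := X1 l
  X' := X1 l'
  pre := pre l
  pre' := pre l'
  key := fun i x => hkey l 1 i (mask (pre l i) x)
  key' := fun i x => hkey l' 1 i (mask (pre l' i) x)
  rk := rk (ordK l)
  P := {fam (era l)}
  R := fam (era l + 2)

theorem av_mono' {y z : ℕ} (h : y ≤ z) (f : Fin 3) : av y f ≤ av z f :=
  Finset.card_le_card (Finset.filter_subset_filter _ (Finset.range_mono h))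

theorem mask_inj {P : Finset (Fin 3)} {x y : Fin 3 → ℕ} (h : mask P x = mask P y) :
    ∀ j ∈ P, x j = y j := by
  intro j hj
  have := congrFun h j
  simpa [mask, hj] using this

theorem mask_congr {P : Finset (Fin 3)} {x y : Fin 3 → ℕ} (h : ∀ j ∈ P, x j = y j) :
    mask P x = mask P y := by
  funext j
  unfold mask
  split_ifs with hj
  · exact h j hj
  · rfl

theorem mem_X1 {l : ℕ} {x : Fin 3 → ℕ} : x ∈ X1 l ↔
    ∀ f, (x f).Prime ∧ (x f).Coprime (pr f) ∧ x f ^ 2 < pr f ^ av l f := by
  unfold X1 TT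
  rw [Fintype.mem_piFinset]
  exact forall_congr' (fun f => mem_T1)

theorem hkey_inj {l i : ℕ} {f : Fin 3} {y : Fin 3 → ℕ} {l' i' : ℕ} {f' : Fin 3}
    {y' : Fin 3 → ℕ} (h : hkey l i f y = hkey l' i' f' y') : l = l' ∧ i = i' ∧ f = f' ∧ y = y' := by
  simp only [hkey, Prod.mk.injEq, true_and] at h
  exact ⟨h.1, h.2.1, Fin.ext h.2.2.1, h.2.2.2⟩

/-- the phases of two close states -/
theorem phase_cases {l' l : ℕ} (hbb : bb 0 ≤ l') (hl : l' ≤ l) (he : era l' = era l)
    (hD : 15 * (l - l') ≤ bb (era l + 1) - bb (era l)) :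
    ordK l' = ordK l ∨ (ordK l' = era l ∧ ordK l = era l + 1 ∧ iso l') := by
  have h1 := ordK_mono hbb hl
  rcases ordK_cases l' with h2 | h2 <;> rcases ordK_cases l with h3 | h3
  · left
    rw [h2, h3, he]
  · right
    refine ⟨by rw [h2, he], h3, ?_⟩
    have h4 := (era_spec l' hbb).1
    have h5 := (era_spec l (hbb.trans hl)).1
    have h6 : 5 * (l' - bb (era l')) < 2 * (bb (era l' + 1) - bb (era l')) := by
      by_contra hc
      have : ordK l' = era l' + 1 := by
        unfold ordK
        rw [if_neg hc]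
      omega
    have h7 : ¬ 5 * (l - bb (era l)) < 2 * (bb (era l + 1) - bb (era l)) := by
      intro hc
      have : ordK l = era l := by
        unfold ordK
        rw [if_pos hc]
      omega
    refine ⟨?_, h6⟩
    rw [he] at h4 ⊢
    omega
  · exfalso
    omega
  · left
    rw [h2, h3, he]

/-- the fresh family is hashed by the growing one -/
theorem fam_mem_pre (l : ℕ) : fam (era l) ∈ pre l (fam (era l + 2)) := by
  rw [mem_pre]
  rcases ordK_cases l with h | h
  · rw [h, rk_self, rk_next2]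
    exact ⟨fun h => absurd h.2 (by norm_num), by norm_num⟩
  · rw [h, rk_prev, show era l + 2 = (era l + 1) + 1 by ring, rk_next]
    refine ⟨fun h2 => ?_, by norm_num⟩
    have := ordK_of_iso h2.1
    omega

/-- a common rank of the two orders -/
theorem rank_pre {l' l : ℕ} (hbb : bb 0 ≤ l') (hl : l' ≤ l) (he : era l' = era l)
    (hD : 15 * (l - l') ≤ bb (era l + 1) - bb (era l)) (i j : Fin 3)
    (hj : j ∈ pre l i ∪ pre l' i) : rk (ordK l) j < rk (ordK l) i := by
  rw [mem_union] at hj
  rcases hj with hj | hj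
  · exact ((mem_pre l i j).1 hj).2
  · have h := (mem_pre l' i j).1 hj
    rcases phase_cases hbb hl he hD with h1 | ⟨h1, h2, h3⟩
    · rw [← h1]
      exact h.2
    · rw [h1] at h
      have h4 := rk_lt (era l) i
      have h5 : rk (era l) i ≠ 2 := fun hc => h.1 ⟨h3, hc⟩
      have h6 : rk (era l) i = 1 := by
        have := h.2
        omega
      have h7 : rk (era l) j = 0 := by
        have := h.2
        omega
      rw [eq_fam_of_rk_zero h7, eq_fam_of_rk_one h6, h2, rk_prev,
        show era l + 2 = (era l + 1) + 1 by ring, rk_next]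
      norm_num

theorem cnt_static {l' l : ℕ} (hl : l' ≤ l) (he : era l' = era l) {f : Fin 3}
    (hf : f ≠ fam (era l)) : cnt f l = cnt f l' := by
  rw [cnt_same_era hl he f, if_neg hf]

theorem cnt_ef_static {m l : ℕ} (hm : 1 < m) (hb : 10 * m ≤ la (era l)) (h : used m l)
    {f : Fin 3} (hf : f ≠ fam (era l)) : cnt f (ef m 1 l) = cnt f l := by
  rw [cnt_ef h hb le_rfl hm f, if_neg hf]

theorem fam_two_ne (k : ℕ) : fam (k + 2) ≠ fam k := fun h => fam_ne_succ2 k h.symm

/-- **J8**: the requirements -/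
theorem MPI_ok {m l' l : ℕ} (hm : 1 < m) (hb : 10 * m ≤ la (era l)) (h : used m l)
    (h' : used m l') (he : era l' = era l) (hl : l' < l)
    (hD : 15 * (l - l') ≤ bb (era l + 1) - bb (era l)) : (MPI m l' l).Ok (Mk m) := by
  have hbb := used_bb_zero h'
  have hb' : 10 * m ≤ la (era l') := by rw [he]; exact hb
  refine
    { prime := pr_prime
      odd := pr_ne_two
      inj := pr_inj
      adm := fun x hx i => ⟨(mem_X1.1 hx i).2.1, Or.inr ⟨(mem_X1.1 hx i).1, (mem_X1.1 hx i).2.2⟩⟩
      adm' := fun x hx i => ⟨(mem_X1.1 hx i).2.1, Or.inr ⟨(mem_X1.1 hx i).1, (mem_X1.1 hx i).2.2⟩⟩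
      cc := fun i => av_mono' hl.le i
      ce := fun i => av_mono' (lt_ef hb hm).le i
      ce' := fun i => av_mono' (lt_ef hb' hm).le i
      ee := fun i => av_mono' (ef_mono m 1 hl.le he) i
      rank := fun i j hj => rank_pre hbb hl.le he hD i j hj
      dep := fun i x y hxy => congrArg (hkey l 1 i) (mask_congr hxy)
      dep' := fun i x y hxy => congrArg (hkey l' 1 i) (mask_congr hxy)
      sep := fun x _ y _ hxy => ?_
      sep' := fun x _ y _ hxy => ?_
      new := fun i x y hi => ⟨fun hc => hi ?_, fun hc => hi ?_⟩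
      mix := fun i x j y hc => ?_
      size := fun x _ => Mk_main m l _ _
      size' := fun x _ => ?_
      PR := ?_
      PR' := ?_
      RP := ?_
      statR := ?_ }
  · exact mask_inj (hkey_inj hxy).2.2.2
  · exact mask_inj (hkey_inj hxy).2.2.2
  · exact (hkey_inj hc).2.2.1
  · exact (hkey_inj hc).2.2.1
  · exact absurd (hkey_inj hc).1 (by omega)
  · have e1 : cnt (fam (era l + 2)) (ef m 1 l') = cnt (fam (era l + 2)) l' :=
      cnt_ef_static hm hb' h' (by rw [he]; exact fam_two_ne _)
    have e2 : cnt (fam (era l + 2)) (ef m 1 l) = cnt (fam (era l + 2)) l' :=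
      (cnt_ef_static hm hb h (fam_two_ne _)).trans (cnt_static hl.le he (fam_two_ne _))
    refine (Mk_main m l' _ _).trans ?_
    change pr (fam (era l + 2)) ^ cnt (fam (era l + 2)) (ef m 1 l') =
      pr (fam (era l + 2)) ^ cnt (fam (era l + 2)) (ef m 1 l)
    rw [e1, e2]
  · intro j hj
    have hj' : j = fam (era l) := Finset.mem_singleton.1 hj
    rw [hj']
    exact fam_mem_pre l
  · intro j hj
    have hj' : j = fam (era l) := Finset.mem_singleton.1 hj
    rw [hj']
    have := fam_mem_pre l'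
    rw [he] at this
    exact this
  · intro hc
    exact fam_two_ne _ (Finset.mem_singleton.1 hc)
  · exact ((cnt_ef_static hm hb h (fam_two_ne _)).trans
      (cnt_static hl.le he (fam_two_ne _))).symm

/-- the extra requirements for the degrees -/
theorem MPI_st {m l' l : ℕ} (h' : used m l') (he : era l' = era l) (hl : l' ≤ l)
    (hD : l - l' ≤ 200 * W m (era l) 1) : (MPI m l' l).St := by
  refine ⟨fun i hi => ?_, fun i hi => ?_⟩
  · have hi' : i ≠ fam (era l) := fun hc => hi (Finset.mem_singleton.2 hc)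
    exact cnt_static hl he hi'
  · have hi' : i = fam (era l) := Finset.mem_singleton.1 hi
    change cnt i l ≤ 2 * cnt i l' + 1
    have h1 : cnt i l = cnt i l' + (l - l') := by
      rw [cnt_same_era hl he i, if_pos hi']
    have h2 : bb (era l') ≤ l' := used_bb h'
    have h3 : cnt i l' = cnt i (bb (era l')) + (l' - bb (era l')) := by
      rw [cnt_same_era h2 (era_bb _) i, if_pos (by rw [he]; exact hi')]
    have h4 := h'.1
    rw [he] at h4 h3
    omega

/-- the codes -/
theorem MPI_cd {m l' l : ℕ} (hM : (MPI m l' l).Ok (Mk m)) (w : Key → ℕ) (x : Fin 3 → ℕ) :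
    (MPI m l' l).cd hM w x = c1 m l w x := rfl

theorem MPI_cd' {m l' l : ℕ} (hM : (MPI m l' l).Ok (Mk m)) (w : Key → ℕ) (x : Fin 3 → ℕ) :
    (MPI m l' l).cd' hM w x = c1 m l' w x := rfl

theorem MPI_N0 (m l' l : ℕ) : (MPI m l' l).N0 = Nj l' := rfl

theorem MPI_Ne (m l' l : ℕ) : (MPI m l' l).Ne = Nj (ef m 1 l) := rfl

theorem MPI_Ne' (m l' l : ℕ) : (MPI m l' l).Ne' = Nj (ef m 1 l') := rfl

theorem MPI_C (m l' l : ℕ) : (MPI m l' l).C = ∏ i, (2 * (pr i - 1)) := rfl

theorem MPI_C_le (m l' l : ℕ) : (MPI m l' l).C ≤ 10 ^ 20 := by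
  rw [MPI_C, Fin.prod_univ_three]
  have h0 : pr 0 = 1000003 := rfl
  have h1 : pr 1 = 1000033 := rfl
  have h2 : pr 2 = 1000037 := rfl
  rw [h0, h1, h2]
  norm_num

theorem MPI_q {m l' l : ℕ} (hm : 1 < m) (hb : 10 * m ≤ la (era l)) (h : used m l) :
    (MPI m l' l).q = pr (fam (era l + 2)) ^ cnt (fam (era l + 2)) l := by
  change pr (fam (era l + 2)) ^ cnt (fam (era l + 2)) (ef m 1 l) = _
  rw [cnt_ef_static hm hb h (fam_two_ne _)]

/-- number of labels in a class modulo the front of the lower state -/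
theorem MPI_Lam {m l' l : ℕ} (hm : 1 < m) (hb : 10 * m ≤ la (era l))
    (h' : used m l') (he : era l' = era l) (hl : l' ≤ l) :
    (MPI m l' l).Lam = pr (fam (era l)) ^ ((l - l' - 2 * (ef m 1 l' - l')) / 2) := by
  have hb' : 10 * m ≤ la (era l') := by rw [he]; exact hb
  have hmem : fam (era l) ∈ univ.erase (fam (era l + 2)) :=
    Finset.mem_erase.2 ⟨(fam_two_ne _).symm, mem_univ _⟩
  change ∏ i ∈ univ.erase (fam (era l + 2)),
    pr i ^ ((cnt i l + cnt i l' - 2 * cnt i (ef m 1 l')) / 2) = _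
  rw [Finset.prod_eq_single_of_mem _ hmem]
  · congr 1
    have h1 : cnt (fam (era l)) l = cnt (fam (era l)) l' + (l - l') := by
      rw [cnt_same_era hl he, if_pos rfl]
    have h2 : cnt (fam (era l)) (ef m 1 l') = cnt (fam (era l)) l' + (ef m 1 l' - l') := by
      rw [cnt_ef h' hb' le_rfl hm, if_pos (by rw [he])]
    omega
  · intro i _ hi
    have h1 : cnt i l = cnt i l' := cnt_static hl he hi
    have h2 : cnt i (ef m 1 l') = cnt i l' := cnt_ef_static hm hb' h' (by rw [he]; exact hi)
    rw [h1, h2, show (cnt i l' + cnt i l' - 2 * cnt i l') / 2 = 0 by omega, pow_zero]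

/-- a product of the kind of `base_count` has only the factor of the growing family -/
theorem MPI_prod {m l' l : ℕ} (he : era l' = era l) (hl : l' ≤ l) (b : Fin 3 → ℕ)
    (hbi : ∀ i, i ≠ fam (era l) → cnt i l' ≤ b i) :
    ∏ i, (MPI m l' l).p i ^ (((MPI m l' l).c i + (MPI m l' l).c' i - 2 * b i) / 2) =
      pr (fam (era l)) ^ ((2 * cnt (fam (era l)) l' + (l - l') - 2 * b (fam (era l))) / 2) := by
  change ∏ i, pr i ^ ((cnt i l + cnt i l' - 2 * b i) / 2) = _
  rw [Finset.prod_eq_single_of_mem _ (mem_univ (fam (era l)))]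
  · have h1 : cnt (fam (era l)) l = cnt (fam (era l)) l' + (l - l') := by
      rw [cnt_same_era hl he, if_pos rfl]
    rw [h1, show cnt (fam (era l)) l' + (l - l') + cnt (fam (era l)) l' =
      2 * cnt (fam (era l)) l' + (l - l') by ring]
  · intro i _ hi
    have h1 : cnt i l = cnt i l' := cnt_static hl he hi
    have h2 := hbi i hi
    rw [h1, show (cnt i l' + cnt i l' - 2 * b i) / 2 = 0 by omega, pow_zero]

/-- for large eras every distance `≤ 200 W₁` is small against the length of the era -/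
theorem close_of_large {m l' l : ℕ} (hm : 0 < m) (hb : 14 * m ≤ la (era l))
    (hD : l - l' ≤ 200 * W m (era l) 1) : 15 * (l - l') ≤ bb (era l + 1) - bb (era l) := by
  have h1 := (era_length (era l)).1
  have h2 := W_zero_le m (era l)
  rw [W_succ hm] at h2
  have h3 : 2 ^ 14 ≤ rt m (era l) := by
    unfold rt
    apply Nat.pow_le_pow_right (by norm_num)
    exact (Nat.le_div_iff_mul_le hm).2 hb
  have h4 := Nat.mul_le_mul_right (W m (era l) (0 + 1)) h3
  have h5 := W_pos m (era l) 1
  simp only [zero_add] at h2 h4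
  omega

/-! ## keys -/

theorem lt_Nj_of_mem_X1 {l : ℕ} {x : Fin 3 → ℕ} (hx : x ∈ X1 l) (f : Fin 3) : x f < Nj l := by
  obtain ⟨h1, -, h3⟩ := mem_X1.1 hx f
  have h2 : pr f ^ av l f ≤ Nj l := by
    apply Nat.le_of_dvd (NN_pos pr_prime _)
    exact Finset.dvd_prod_of_mem (fun i => pr i ^ av l i) (mem_univ f)
  have h4 : x f ≤ x f ^ 2 := by
    rw [sq]
    exact Nat.le_mul_of_pos_left _ h1.pos
  omega

theorem hkey_mem {m k l : ℕ} {x : Fin 3 → ℕ} (hx : x ∈ X1 l) (f : Fin 3) (P : Finset (Fin 3)) :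
    hkey l 1 f (mask P x) ∈ keysOf m k l := by
  unfold keysOf hkey
  simp only [mem_product, mem_singleton, mem_range, Fintype.mem_piFinset, true_and]
  refine ⟨by omega, by have := f.isLt; omega, fun g => ?_⟩
  have h1 := lt_Nj_of_mem_X1 hx g
  unfold mask Bd
  split_ifs
  · omega
  · omega

end Pool.Agent.Helper2.T5
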