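import Pool.Agent.Helper22.NEAR.Defs
import Pool.Agent.Helper27.T5.ScaleMu

/-!
# T5a, block NEAR: the pieces `num_small` (NE12) and `W_ge_pow` (NE13)
-/

set_option autoImplicit false

namespace Pool.Agent.Helper2.T5

open Finset Pool.Agent.Helper27.T4 Pool.Agent.Helper27.T5 Pool.Agent.Helper22.HW
  Pool.Agent.Helper22.SL Pool.Agent.Helper57.T5 Pool.Agent.Helper11.T5 Pool.Agent.Helper63.T5
  Pool.Agent.Helper39.T5 Pool.Agent.Helper22.NEAR
open Pool.Agent.Helper5.ET (Nj era bb)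

/-- the quotient `rt` is at most the `m`-th root of the position -/
theorem rt_le_root {m l : ℕ} (hm : 0 < m) (h : used m l) :
    (rt m (era l) : ℝ) ≤ (l : ℝ) ^ ((1 : ℝ) / (m : ℝ)) := by
  have hm' : (0 : ℝ) < (m : ℝ) := by exact_mod_cast hm
  have h1 : (rt m (era l)) ^ m ≤ l := by
    unfold rt
    rw [← pow_mul]
    refine le_trans (Nat.pow_le_pow_right (by norm_num) (Nat.div_mul_le_self (la (era l)) m)) ?_
    exact (pow_la_le (era l)).trans (used_bb h)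
  have h2 : ((rt m (era l) : ℝ)) ^ m ≤ (l : ℝ) := by exact_mod_cast h1
  have h3 : (0 : ℝ) ≤ (rt m (era l) : ℝ) := Nat.cast_nonneg _
  calc (rt m (era l) : ℝ) = (((rt m (era l) : ℝ)) ^ m) ^ ((1 : ℝ) / (m : ℝ)) := by
        rw [← Real.rpow_natCast, ← Real.rpow_mul h3, mul_one_div_cancel hm'.ne', Real.rpow_one]
    _ ≤ _ := Real.rpow_le_rpow (by positivity) h2 (by positivity)

/-- NE12: exponents of the case of few labels -/
theorem num_small : ∃ E : ℕ, ∀ k c CV, 0 ≤ CV → ∃ (C1 : ℝ) (K0 : ℕ), 0 ≤ C1 ∧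
    ∀ j t l' l, K0 ≤ l' → PD (k + 2) k j (t + 1) l' l → CaseSmall c k j t l' l →
      ((In j l' l * (Pool.Agent.Helper83.T5.CL k * RV k l CV) : ℕ) : ℝ) ≤
        C1 * (l : ℝ) ^ ((E : ℝ) / ((k + 2 : ℕ) : ℝ)) := by
  refine ⟨11, fun k c CV hCV => ⟨2 ^ (10 * c) * (Pool.Agent.Helper83.T5.CL k * CV), 0,
    by positivity, ?_⟩⟩
  intro j t l' l _ h hs
  have hel : era l = j := h.el
  have hu := h.u
  have hl0 : (0 : ℝ) < (l : ℝ) := by
    have := h.lt
    exact_mod_cast (show 0 < l by omega)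
  have hr := rt_le_root (m := k + 2) (by omega) hu
  rw [hel] at hr
  set r : ℝ := (l : ℝ) ^ ((1 : ℝ) / ((k + 2 : ℕ) : ℝ)) with hrdef
  have hr0 : (0 : ℝ) ≤ r := by positivity
  have hp : pj j ≤ 2 ^ 20 := by
    unfold pj
    exact (pr_le _).trans (by norm_num)
  have hI : In j l' l ≤ 2 ^ (10 * c) * (rt (k + 2) j) ^ 10 := by
    unfold In rt
    rw [← pow_mul, ← pow_add]
    refine le_trans (Nat.pow_le_pow_left hp _) ?_
    rw [← pow_mul]
    apply Nat.pow_le_pow_right (by norm_num)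
    unfold CaseSmall at hs
    omega
  have hI' : (In j l' l : ℝ) ≤ 2 ^ (10 * c) * r ^ 10 := by
    have h1 : (In j l' l : ℝ) ≤ 2 ^ (10 * c) * ((rt (k + 2) j : ℕ) : ℝ) ^ 10 := by
      exact_mod_cast hI
    refine h1.trans ?_
    have h2 : ((rt (k + 2) j : ℕ) : ℝ) ^ 10 ≤ r ^ 10 := pow_le_pow_left₀ (Nat.cast_nonneg _) hr 10
    exact mul_le_mul_of_nonneg_left h2 (by positivity)
  have hR : (RV k l CV : ℝ) ≤ CV * r := by
    unfold RV
    exact Nat.floor_le (by positivity)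
  have h11 : r ^ 10 * r = (l : ℝ) ^ (((11 : ℕ) : ℝ) / ((k + 2 : ℕ) : ℝ)) := by
    rw [hrdef, ← pow_succ, ← Real.rpow_natCast, ← Real.rpow_mul hl0.le]
    congr 1
    push_cast
    ring
  calc ((In j l' l * (Pool.Agent.Helper83.T5.CL k * RV k l CV) : ℕ) : ℝ)
      = (In j l' l : ℝ) * ((Pool.Agent.Helper83.T5.CL k : ℝ) * (RV k l CV : ℝ)) := by push_cast; ring
    _ ≤ (2 ^ (10 * c) * r ^ 10) * ((Pool.Agent.Helper83.T5.CL k : ℝ) * (CV * r)) := by
        gcongr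
    _ = 2 ^ (10 * c) * (Pool.Agent.Helper83.T5.CL k * CV) * (r ^ 10 * r) := by ring
    _ = _ := by rw [h11]

/-- NE13: the smallest window grows with the position -/
theorem W_ge_pow (k : ℕ) : ∃ (c0 : ℝ) (K0 : ℕ), 0 < c0 ∧ ∀ l, K0 ≤ l → used (k + 2) l →
    (l : ℝ) ^ c0 ≤ W (k + 2) (era l) (k + 1) := by
  refine ⟨1 / (2 * ((k + 2 : ℕ) : ℝ)), bb 0, by positivity, ?_⟩
  intro l hl hu
  have hk : (0 : ℝ) < ((k + 2 : ℕ) : ℝ) := by positivity
  set j := era l with hj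
  have h1 : l < 2 ^ (la j + 2) := by
    have h2 := (era_spec l hl).2
    rw [← hj] at h2
    have h3 := bb_succ_le_two j
    have h4 := lt_pow_la j
    have h5 : (2 : ℕ) ^ (la j + 2) = 2 * 2 ^ (la j + 1) := by ring
    omega
  have h6 : (l : ℝ) ≤ (2 : ℝ) ^ ((la j + 2 : ℕ) : ℝ) := by
    rw [Real.rpow_natCast]
    exact_mod_cast h1.le
  have h7 : ((la j : ℕ) : ℝ) ≤ ((k + 2 : ℕ) : ℝ) * ((la j - (k + 1) * (la j / (k + 2)) : ℕ) : ℝ) := by
    have h8 : la j ≤ (k + 2) * (la j - (k + 1) * (la j / (k + 2))) := by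
      have h9 : (k + 1) * (la j / (k + 2)) ≤ la j := mul_div_le' (by omega)
      have h10 : (k + 2) * (la j / (k + 2)) ≤ la j := Nat.mul_div_le _ _
      zify [h9] at *
      nlinarith
    exact_mod_cast h8
  have h64 : (64 : ℝ) ≤ ((la j : ℕ) : ℝ) := by exact_mod_cast la_ge j
  have hW : ((W (k + 2) j (k + 1) : ℕ) : ℝ) =
      (2 : ℝ) ^ (((la j - (k + 1) * (la j / (k + 2)) : ℕ) : ℝ)) := by
    rw [Real.rpow_natCast]
    unfold W
    push_cast
    rfl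
  rw [hW]
  calc (l : ℝ) ^ (1 / (2 * ((k + 2 : ℕ) : ℝ)))
      ≤ ((2 : ℝ) ^ ((la j + 2 : ℕ) : ℝ)) ^ (1 / (2 * ((k + 2 : ℕ) : ℝ))) :=
        Real.rpow_le_rpow (Nat.cast_nonneg _) h6 (by positivity)
    _ = (2 : ℝ) ^ (((la j + 2 : ℕ) : ℝ) * (1 / (2 * ((k + 2 : ℕ) : ℝ)))) := by
        rw [← Real.rpow_mul (by norm_num)]
    _ ≤ _ := by
        apply Real.rpow_le_rpow_of_exponent_le (by norm_num)
        rw [mul_one_div, div_le_iff₀ (by positivity)]
        push_cast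
        push_cast at h7
        nlinarith

end Pool.Agent.Helper2.T5
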